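import Pool.Agent.Lib.NMA.Spec
import Pool.Agent.Lib.NMB.Spec
import Pool.Agent.Lib.NLF.AllF

/-! MP_00e23e_nt, project NLM (arbitrary part m ≤ x^μ, μ < 1/5): the end, from the statements NMA.MfiStmt (chapter A'),
NMB.BfiMStmt (chapter B) and NMB.BinMStmt (T-chapter) to the final forms (helper90). -/

namespace Pool.Agent.Lib.NLE

open Finset Pool.Agent.Lib.EH3 Pool.Agent.Lib.TB Pool.Agent.Results.MP_00e23e_nt Pool.Agent.Lib.MI

/-- The theorem for the von Mangoldt function: for every μ < 1/5 there is e > 0 such that it holds at level x^(1/2+e) for the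
moduli q with a divisor m ≤ x^μ and x^e-smooth cofactor. -/
theorem tCoreM (hA : NMA.MfiStmt) (hf : NMB.BfiMStmt) (hB : NMB.BinMStmt) (μ : ℝ) (hμ0 : 0 ≤ μ) (hμ : μ < 1 / 5) :
    ∃ e : ℝ, 0 < e ∧ e ≤ 1 / 100000 ∧ SLA.CoreStmt (NLF.Hq (NLF.Smq μ e)) (1 / 2 + e) (e / 16) := by
  set w : ℝ := (1 / 5 - μ) / 20 with hw
  have hw0 : 0 < w := by rw [hw]; linarith
  have hw1 : 20 * w = 1 / 5 - μ := by rw [hw]; ring
  set θ : ℝ := max (2 * (μ + 2 * w)) (1 / 3) with hθ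
  have hθ1 : 2 * (μ + 2 * w) ≤ θ := le_max_left _ _
  have hθ2 : 1 / 3 ≤ θ := le_max_right _ _
  have hθ3 : θ ≤ 1 / 2 - (μ + 2 * w) / 2 := by
    rw [hθ]
    apply max_le <;> linarith
  obtain ⟨e0, he0, hB⟩ := hB μ (μ + 2 * w) θ (μ + w) w hw0
  set e : ℝ := min e0 (w / 100000) with he
  have h1 : e ≤ e0 := min_le_left _ _
  have h2 : e ≤ w / 100000 := min_le_right _ _
  have h0 : 0 < e := lt_min he0 (by positivity)
  have hP : NMB.ParM μ (μ + 2 * w) θ (μ + w) w e e e := by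
    refine ⟨⟨hμ0, hw0, le_rfl, by linarith⟩, ⟨hθ1, hθ2, by linarith⟩, ⟨h0.le, le_rfl⟩, ⟨h0, le_rfl⟩, by linarith⟩
  have hBl := hf _ _ _ _ _ _ _ _ hP (hB e e e h1 hP)
  have hPA : NMA.ParAM (1 / 2 + e) (e / 16) (μ + 2 * w) θ e := by
    refine ⟨⟨h0, by linarith, by linarith, by linarith, by linarith⟩,
      ⟨by linarith, hθ1, hθ2, by linarith⟩, by linarith, by linarith⟩
  exact ⟨e, h0, by linarith, hA _ _ _ _ _ _ hPA hBl⟩

theorem tEndM (hA : NMA.MfiStmt) (hf : NMB.BfiMStmt) (hB : NMB.BinMStmt) (μ : ℝ) (hμ0 : 0 ≤ μ) (hμ : μ < 1 / 5) :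
    ∃ δ0 : ℝ, 0 < δ0 ∧ NLF.NlA (NLF.Smq μ δ0) δ0 ∧ NLF.NlR (NLF.Smq μ δ0) δ0 δ0 := by
  obtain ⟨e, h0, h1, hC⟩ := tCoreM hA hf hB μ hμ0 hμ
  have hd1 : e / 16 ≤ e := by linarith
  refine ⟨e / 16, by positivity, ?_, ?_⟩
  · exact NLF.NlA.mono (fun x q hx hq => NLF.Smq_mono le_rfl hd1 hx hq) hd1
      (NLF.tFinAll _ _ _ h0.le (by linarith) (by positivity) (by linarith) hC)
  · exact NLF.NlR.mono (fun x q hx hq => NLF.Smq_mono le_rfl hd1 hx hq) hd1 le_rfl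
      (NLF.tRonAll _ _ _ h0.le (by linarith) (by positivity) (by linarith) hC)

end Pool.Agent.Lib.NLE
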