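import Pool.Agent.Lib.SLB.AllB
import Pool.Agent.Lib.SLH.AllD
import Pool.Agent.Lib.SLG.AllL
import Pool.Agent.Lib.SLG.AllM
import Pool.Agent.Lib.NLS.AllS
import Pool.Agent.Lib.SLN.PhN
import Pool.Agent.Lib.SLN.PbF
import Pool.Agent.Lib.NLB.BgaN
import Pool.Agent.Lib.NLB.BdiN
import Pool.Agent.Lib.NLB.BorN
import Pool.Agent.Lib.NM.Mcl
import Pool.Agent.Lib.NM.Mdc
import Pool.Agent.Lib.NM.Mfi
import Pool.Agent.Lib.NM.Mgd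
import Pool.Agent.Lib.NM.PbM
import Pool.Agent.Lib.NMB.BncM
import Pool.Agent.Lib.NMB.BbbM
import Pool.Agent.Lib.NMB.BdrM
import Pool.Agent.Lib.NMB.BdsM
import Pool.Agent.Lib.NMB.BgeM
import Pool.Agent.Lib.NMB.BfiM
import Pool.Agent.Lib.NMB.NumM
import Pool.Agent.Lib.NMB.BinM
import Pool.Agent.Lib.NMA.All
import Pool.Agent.Lib.NLE.EndM

/-! MP_00e23e_nt, project NLM (all classes, no lock, arbitrary part m ≤ x^μ for every μ < 1/5): everything without hypotheses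
(glue; helper90). -/

namespace Pool.Agent.Lib.NLE

/-- the lattice theorem with an arbitrary divisor m of B -/
theorem aMfiL : NM.MfiStmt :=
  NM.tMfi SLG.tLbs SLG.aLin SLG.tLze SLG.aLalT SLG.tLmz SLG.aLliT NM.tMcl (NM.tMgd SLG.tLbs NM.tMcl) NM.tMdc
    (NM.tMph SLG.aGsp)

/-- the bound of the sums TG -/
theorem aBinM : NMB.BinMStmt :=
  NMB.tBinM NLS.aSecN (SLN.tPbT SLN.tPhN SLG.aLtr) (NM.tPbM SLN.tPhN aMfiL) NMB.tNumM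

/-- the bilinear theorem -/
theorem aBfiM : NMB.BfiMStmt :=
  NMB.tBfiM (NMB.tBdsM (NMB.tBdrM (NMB.tBbbM (NLB.tBdiN SLH.tDspT (NLB.tBgaN SLB.tBdh)) NMB.tBncM)) MK.tFsp) NLB.tBorN
    (NMB.tBgeM MI.tBid (SL.tBrg MI.tBph) (ML.tBlg MI.tLrgAll) MI.tLrgAll)

/-- THEOREM NLM for the von Mangoldt function -/
theorem aCoreM (μ : ℝ) (hμ0 : 0 ≤ μ) (hμ : μ < 1 / 5) :
    ∃ e : ℝ, 0 < e ∧ e ≤ 1 / 100000 ∧ SLA.CoreStmt (NLF.Hq (NLF.Smq μ e)) (1 / 2 + e) (e / 16) :=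
  tCoreM NMA.tMfiAll aBfiM aBinM μ hμ0 hμ

/-- THEOREM NLM: all classes, no lock, arbitrary part m ≤ x^μ, μ < 1/5 -/
theorem aNlm (μ : ℝ) (hμ0 : 0 ≤ μ) (hμ : μ < 1 / 5) :
    ∃ δ : ℝ, 0 < δ ∧ NLF.NlA (NLF.Smq μ δ) δ ∧ NLF.NlR (NLF.Smq μ δ) δ δ :=
  tEndM NMA.tMfiAll aBfiM aBinM μ hμ0 hμ

end Pool.Agent.Lib.NLE
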