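import Pool.Agent.Lib.NLA.All
import Pool.Agent.Lib.NLB.Spec
import Pool.Agent.Lib.NLF.AllF

/-! MP_00e23e_nt, project NL: the end, from the two statements NLB.BfiNStmt and NLB.BinNStmt to the final forms (helper90). -/

namespace Pool.Agent.Lib.NLE

open Finset Pool.Agent.Lib.EH3 Pool.Agent.Lib.TB Pool.Agent.Results.MP_00e23e_nt Pool.Agent.Lib.MI

theorem tEnd (h : NLB.BfiNStmt) (hB : NLB.BinNStmt) :
    ∃ δ0 : ℝ, 0 < δ0 ∧ NLF.NlA (NLF.Sq δ0) δ0 ∧ NLF.NlR (NLF.Sq δ0) δ0 δ0 := by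
  obtain ⟨e0, he0, hB⟩ := hB
  set e : ℝ := min e0 (1 / 100000) with he
  have h1 : e ≤ e0 := min_le_left _ _
  have h2 : e ≤ 1 / 100000 := min_le_right _ _
  have h0 : 0 < e := lt_min he0 (by norm_num)
  have hP : NLB.ParN e e e := ⟨⟨h0.le, le_rfl⟩, ⟨h0, le_rfl⟩, by linarith⟩
  have hBl := h e e e hP (hB e e e h1 hP)
  have hPA : NLA.ParA (1 / 2 + e) (e / 16) (1 / 60) (2 / 5) e := by
    refine ⟨⟨h0, by linarith, by linarith, by linarith, by linarith⟩,
      ⟨by linarith, by norm_num, by norm_num, by linarith⟩, by linarith, by linarith, by linarith⟩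
  have hC := NLA.tAfiAll _ _ _ _ _ _ hPA hBl
  have hC' : SLA.CoreStmt (NLF.Hq (NLF.Sq e)) (1 / 2 + e) (e / 16) := by
    obtain ⟨η, C, x0, A0, a1, a2, a3⟩ := hC
    refine ⟨η, C, max x0 1, A0, a1, a2, fun x T z a Y F t hx hT hz1 hzx hY hF hΦ => ?_⟩
    have hx1 : 1 ≤ x := (le_max_right _ _).trans hx
    refine a3 x T z a Y F t ((le_max_left _ _).trans hx) hT hz1 hzx hY hF ?_
    intro q hq
    refine ⟨1, one_dvd q, ?_, ?_⟩
    · rw [Nat.cast_one]
      exact Real.one_le_rpow hx1 (by norm_num)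
    · intro p hp hpq
      rw [Nat.div_one] at hpq
      exact hΦ q hq p hp hpq
  exact NLF.display_sq h0 h0 (by linarith) (by linarith) (by linarith) hC'

end Pool.Agent.Lib.NLE
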